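import Mathlib

namespace Pool.Agent.Results.MP_3af439_nt.Counter

open Finset

/-- `phi3 n` counts `1 ≤ i ≤ n / 3` with `gcd(i, n) = 1`. -/
def phi3 (n : ℕ) : ℕ := ((Icc 1 (n / 3)).filter fun i => Nat.gcd i n = 1).card

/-- The listed exceptional set. -/
def E : Finset ℕ := {4, 6, 8, 9, 12, 16, 21, 65, 425, 1729, 3201, 3531, 22865}

def c (x m : ℕ) : ℕ := ((Icc 1 x).filter fun i => Nat.gcd i m = 1).card

theorem c_one (x : ℕ) : c x 1 = x := by simp [c]

theorem c_step (x p m : ℕ) (hp : p.Prime) (hm : p.Coprime m) :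
    c x (p * m) = c x m - c (x / p) m := by
  have h1 : ((Icc 1 x).filter fun i => Nat.gcd i m = 1).filter (fun i => ¬ p ∣ i)
      = (Icc 1 x).filter fun i => Nat.gcd i (p * m) = 1 := by
    rw [filter_filter]
    refine filter_congr fun i _ => ?_
    change Nat.Coprime i m ∧ ¬ p ∣ i ↔ Nat.Coprime i (p * m)
    rw [Nat.coprime_mul_iff_right, Nat.coprime_comm (n := i) (m := p), hp.coprime_iff_not_dvd]
    tauto
  have h2 : ((Icc 1 x).filter fun i => Nat.gcd i m = 1).filter (fun i => p ∣ i)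
      = ((Icc 1 (x / p)).filter fun i => Nat.gcd i m = 1).image fun j => p * j := by
    ext i
    simp only [mem_filter, mem_Icc, mem_image]
    constructor
    · rintro ⟨⟨⟨a1, a2⟩, a3⟩, j, rfl⟩
      refine ⟨j, ⟨⟨?_, ?_⟩, ?_⟩, rfl⟩
      · rcases Nat.eq_zero_or_pos j with rfl | h
        · simp at a1
        · exact h
      · rw [Nat.le_div_iff_mul_le hp.pos, mul_comm]; exact a2
      · exact Nat.Coprime.coprime_mul_left a3
    · rintro ⟨j, ⟨⟨a1, a2⟩, a3⟩, rfl⟩
      rw [Nat.le_div_iff_mul_le hp.pos, mul_comm] at a2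
      exact ⟨⟨⟨Nat.mul_pos hp.pos a1, a2⟩, Nat.Coprime.mul_left hm a3⟩, dvd_mul_right _ _⟩
  have h3 := card_filter_add_card_filter_not (s := (Icc 1 x).filter fun i => Nat.gcd i m = 1)
    (fun i => p ∣ i)
  rw [h1, h2, card_image_of_injective _ (mul_right_injective₀ hp.ne_zero)] at h3
  unfold c
  omega

theorem val : phi3 4125441 = 825088 := by
  have s4 : ∀ x, c x 3517 = x - x / 3517 := fun x => by
    have := c_step x 3517 1 (by norm_num) (by norm_num)
    rwa [c_one, c_one] at this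
  have s3 : ∀ x, c x 80891 = c x 3517 - c (x / 23) 3517 := fun x =>
    c_step x 23 3517 (by norm_num) (by norm_num)
  have s2 : ∀ x, c x 1375147 = c x 80891 - c (x / 17) 80891 := fun x =>
    c_step x 17 80891 (by norm_num) (by norm_num)
  have s1 : ∀ x, c x 4125441 = c x 1375147 - c (x / 3) 1375147 := fun x =>
    c_step x 3 1375147 (by norm_num) (by norm_num)
  have h : phi3 4125441 = c (4125441 / 3) 4125441 := rfl
  rw [h, s1, s2, s2, s3, s3, s3, s3]
  simp only [s4]

theorem result : ¬ ∀ n : ℕ, 4 ≤ n → ¬ n.Prime → n ∉ E → ¬ phi3 n ∣ n - 1 := by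
  intro h
  apply h 4125441 (by norm_num) (by norm_num) (by simp [E])
  rw [val]
  norm_num

end Pool.Agent.Results.MP_3af439_nt.Counter
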